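import Pool.Agent.Helper15.UL.GoalsE

/-!
# MP_57a173_lc, packet DEF: every set of points defines a truth value below a condition
-/

noncomputable section

namespace UL.PkDEF

open Pool.Agent.Helper97.Ku NU MeasureTheory UL

theorem thm : UL.G_DEF := by
  intro I _ _ ω hω S
  refine ⟨RO.cl {p | ∃ χ, IsM χ ∧ (∀ z, χ z ∈ S) ∧ p.f = ω ∘ χ}, ?_⟩
  intro χ hχ
  constructor
  · intro k
    refine ⟨hω.comp hχ, fun q hq => ⟨q, le_rfl, ?_⟩⟩
    obtain ⟨h, hh, e⟩ := hq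
    exact ⟨χ ∘ h, hχ.comp hh, fun z => k (h z), by rw [e]; rfl⟩
  · intro k
    rw [Fc.compl_iff]
    refine ⟨hω.comp hχ, fun g hg hc => ?_⟩
    obtain ⟨r, ⟨h, hh, e⟩, χ', hχ', h1, h2⟩ := hc.2 _ le_rfl
    obtain ⟨z⟩ : Nonempty (Pt I) := inferInstance
    have e3 : ω (χ (g (h z))) = ω (χ' z) := congrFun (e.symm.trans h2) z
    have e4 : χ (g (h z)) = χ' z := by
      funext ξ
      exact hω.inj (D := Set.univ) isLowerSet_univ (fun ξ _ => by rw [e3]) ξ trivial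
    refine k (g (h z)) ?_
    rw [e4]
    exact h1 z

end UL.PkDEF
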